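import Pool.Agent.Helper3.TP.St
import Pool.Agent.Helper3.TL.M_CLO
import Pool.Agent.Helper80.TL.M_FAM1
import Pool.Agent.Helper80.TL.M_FAM2

open Finset
open MP86d903 (Valid Lit inside mem_inside pt flip Clause Ineq clauseIneq vsF ngF)
open Helper80.SR (Exp Closed Cl Sm)
open Helper3.TL Helper3.TP

namespace Helper39.TP

theorem hConst : PConst := by
  intro ι V _ _ _ _ vs ng q D κ A R₀ R₁ ρ σ₁ d c h hE hκ hext hAR hR hR0 hdiv
  obtain ⟨t1, t2, t3, t4, t5, t6⟩ := Helper80.TL.hFam1 ι V vs ng q D κ A hE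
  obtain ⟨c1, c2⟩ := Helper80.TL.hFam2 ι V vs q D κ A hE
  have hAc : Closed vs q A := hE.closed'
  have hA0 : (A \ A).card ≤ κ := by simp
  have hRκ : (R₀ \ A).card ≤ κ :=
    (card_le_card (sdiff_subset_sdiff hR (subset_refl A))).trans hext.2.2.1
  have hext0 : Ext vs ng q A κ A ρ R₀ σ₁ := t3 _ _ _ _ _ _ _ hext hR0 hAR hR hRκ
  have e1 := (t5 _ _ _ _ _ d c hext).1
  have e0 := (t5 _ _ _ _ _ d c hext0).1
  have e2 : ∑ i ∈ R₁ \ A, d i * sg (σ₁ i) =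
      ∑ i ∈ R₁ \ R₀, d i * sg (σ₁ i) + ∑ i ∈ R₀ \ A, d i * sg (σ₁ i) := by
    rw [← sum_union]
    · refine sum_congr ?_ fun _ _ => rfl
      ext v
      simp only [mem_sdiff, mem_union]
      constructor
      · rintro ⟨h1, h2⟩
        by_cases hv : v ∈ R₀
        · exact Or.inr ⟨hv, h2⟩
        · exact Or.inl ⟨h1, hv⟩
      · rintro (⟨h1, h2⟩ | ⟨h1, h2⟩)
        · exact ⟨h1, fun hv => h2 (hAR hv)⟩
        · exact ⟨hR h1, h2⟩
    · rw [Finset.disjoint_left]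
      intro v hv hv'
      exact (mem_sdiff.mp hv).2 (mem_sdiff.mp hv').1
  have e3 : lv d c R₁ σ₁ - lv d c R₀ σ₁ = ∑ i ∈ R₁ \ R₀, d i * sg (σ₁ i) := by
    rw [e1, e0, e2]
    ring
  rw [e3]
  refine c2 A (R₁ \ R₀) (fun i => d i * sg (σ₁ i)) h (subset_refl A) hAc hA0 ?_ ?_
  · intro i hi
    obtain ⟨hi1, hi2⟩ := mem_sdiff.mp hi
    refine ⟨fun h' => hi2 (hAR h'), ?_⟩
    intro j hj
    obtain ⟨hj1, hj2⟩ := mem_sdiff.mp hj
    refine mem_sdiff.mpr ⟨Helper80.SR.Cl_subset hext.2.1 (insert_subset hi1 hext.1) hj1, ?_⟩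
    intro hjR
    have h1 := c1 A i j (subset_refl A) hAc hA0 hj1 hj2
    have h2 : Cl vs q (insert j A) ⊆ R₀ :=
      Helper80.SR.Cl_subset hR0 (insert_subset hjR hAR)
    rw [h1] at h2
    exact hi2 (h2 (mem_cl_insert i A))
  · intro i hi
    obtain ⟨hi1, hi2⟩ := mem_sdiff.mp hi
    refine hdiv i hi σ₁ ?_
    exact t3 _ _ _ _ _ _ _ hext (Helper80.SR.closed_Cl q _) (subset_cl_insert i A)
      (Helper80.SR.Cl_subset hext.2.1 (insert_subset hi1 hext.1))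
      (card_class_le hClo1 hE i hκ)

end Helper39.TP

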